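import Pool.Agent.W737.SB.Defs

/-!
# Project SB, part SB-H: the local height function of a C2 domain
-/

set_option autoImplicit false

open Metric Set Filter Topology

namespace Pool.Agent.W239.SB

theorem absH {E : Type*} [NormedAddCommGroup E] [NormedSpace ℝ E] [CompleteSpace E]
    (ρ : E → ℝ) (p ν : E) (R : E →L[ℝ] ℝ) (c : ℝ) (hc : 0 < c) (hRν : R ν = 1) (hn : ‖ν‖ = 1)
    (hρ : ContDiff ℝ 2 ρ) (hp : ρ p = 0) (hd : fderiv ℝ ρ p = c • R) :
    ∃ (h : E → ℝ) (r C : ℝ), 0 < r ∧ 0 < C ∧ ContDiffOn ℝ 2 h (ball p r) ∧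
      fderiv ℝ h p = -R ∧ (∀ w ∈ ball p r, (ρ w < 0 ↔ 0 < h w)) ∧
      (∀ w ∈ ball p r, (ρ w = 0 ↔ h w = 0)) ∧ (∀ (w : E) (s : ℝ), h (w + s • ν) = h w - s) ∧
      (∀ w ∈ ball p r, ∀ w' ∈ ball p r, |h w - h w'| ≤ C * ‖w - w'‖) ∧
      (∀ w ∈ ball p r, ∀ w' ∈ ball p r,
        |h w' - h w + R (w' - w)| ≤ C * ‖w' - w‖ * (‖w - p‖ + ‖w' - w‖)) := by
  let N : ℝ →L[ℝ] E := (ContinuousLinearMap.id ℝ ℝ).smulRight ν
  have hN : ∀ s : ℝ, N s = s • ν := fun s => rfl
  let Ψ : E → E := fun w => w + N (c⁻¹ * ρ w - R (w - p))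
  have hΨ : ContDiff ℝ 2 Ψ := by
    refine contDiff_id.add (N.contDiff.comp ?_)
    exact (contDiff_const.mul hρ).sub (R.contDiff.comp (contDiff_id.sub contDiff_const))
  have hΨp : Ψ p = p := by simp [Ψ, hp]
  have hρd : HasFDerivAt ρ (c • R) p := by
    rw [← hd]; exact (hρ.differentiable two_ne_zero p).hasFDerivAt
  have hΨd : HasFDerivAt Ψ ((ContinuousLinearEquiv.refl ℝ E : E ≃L[ℝ] E) : E →L[ℝ] E) p := by
    have h1 : HasFDerivAt (fun w => c⁻¹ * ρ w - R (w - p)) (c⁻¹ • (c • R) - R) p := by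
      have h2 : HasFDerivAt (fun w => R (w - p)) R p := by
        have h3 : HasFDerivAt (fun w : E => w - p) (ContinuousLinearMap.id ℝ E) p :=
          (hasFDerivAt_id p).sub_const p
        have h4 : HasFDerivAt (fun w => R (w - p)) (R.comp (ContinuousLinearMap.id ℝ E)) p :=
          R.hasFDerivAt.comp p h3
        exact h4
      exact (hρd.const_mul c⁻¹).sub h2
    have h4 : c⁻¹ • (c • R) - R = 0 := by
      rw [smul_smul, inv_mul_cancel₀ hc.ne', one_smul, sub_self]
    rw [h4] at h1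
    have h5 : HasFDerivAt (fun w => N (c⁻¹ * ρ w - R (w - p))) (N.comp (0 : E →L[ℝ] ℝ)) p :=
      N.hasFDerivAt.comp p h1
    have h6 := (hasFDerivAt_id (𝕜 := ℝ) p).add h5
    have h7 : ContinuousLinearMap.id ℝ E + N.comp (0 : E →L[ℝ] ℝ)
        = ((ContinuousLinearEquiv.refl ℝ E : E ≃L[ℝ] E) : E →L[ℝ] E) := by
      ext x; simp
    rw [h7] at h6
    exact h6
  have hst : HasStrictFDerivAt Ψ ((ContinuousLinearEquiv.refl ℝ E : E ≃L[ℝ] E) : E →L[ℝ] E) p :=
    hΨ.contDiffAt.hasStrictFDerivAt' hΨd two_ne_zero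
  let Θ : E → E := (hΨ.contDiffAt (x := p)).localInverse hΨd two_ne_zero
  have hΘc : ContDiffAt ℝ 2 Θ p := by
    have := (hΨ.contDiffAt (x := p)).to_localInverse hΨd two_ne_zero
    rwa [hΨp] at this
  have hΘp : Θ p = p := by
    have := (hΨ.contDiffAt (x := p)).localInverse_apply_image hΨd two_ne_zero
    rwa [hΨp] at this
  have hΘr : ∀ᶠ y in 𝓝 p, Ψ (Θ y) = y := by
    have := hst.eventually_right_inverse
    rwa [hΨp] at this
  have hΘd : HasFDerivAt Θ (ContinuousLinearMap.id ℝ E) p := by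
    have := hst.to_localInverse.hasFDerivAt
    rw [hΨp] at this
    exact this
  let π : E → E := fun w => w - N (R (w - p))
  have hπ : ContDiff ℝ 2 π := by
    exact contDiff_id.sub (N.contDiff.comp (R.contDiff.comp (contDiff_id.sub contDiff_const)))
  have hπp : π p = p := by simp [π]
  have hπd : HasFDerivAt π (ContinuousLinearMap.id ℝ E - N.comp R) p := by
    have h2 : HasFDerivAt (fun w => N (R (w - p))) (N.comp R) p := by
      have h3 : HasFDerivAt (fun w : E => w - p) (ContinuousLinearMap.id ℝ E) p :=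
        (hasFDerivAt_id p).sub_const p
      have h4 : HasFDerivAt (fun w => (N.comp R) (w - p))
          ((N.comp R).comp (ContinuousLinearMap.id ℝ E)) p := (N.comp R).hasFDerivAt.comp p h3
      exact h4
    exact (hasFDerivAt_id p).sub h2
  let h : E → ℝ := fun w => R (Θ (π w) - w)
  have hhp : h p = 0 := by simp [h, hπp, hΘp]
  have hhc : ContDiffAt ℝ 2 h p := by
    refine R.contDiff.contDiffAt.comp p (ContDiffAt.sub ?_ contDiffAt_id)
    refine ContDiffAt.comp p ?_ hπ.contDiffAt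
    rw [hπp]; exact hΘc
  have hhd : HasFDerivAt h (-R) p := by
    have h1 : HasFDerivAt (fun w => Θ (π w)) ((ContinuousLinearMap.id ℝ E).comp
        (ContinuousLinearMap.id ℝ E - N.comp R)) p := by
      refine HasFDerivAt.comp p ?_ hπd
      rw [hπp]; exact hΘd
    have h2 : HasFDerivAt h (R.comp ((ContinuousLinearMap.id ℝ E).comp
        (ContinuousLinearMap.id ℝ E - N.comp R) - ContinuousLinearMap.id ℝ E)) p :=
      R.hasFDerivAt.comp p (h1.sub (hasFDerivAt_id p))
    have h3 : R.comp ((ContinuousLinearMap.id ℝ E).comp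
        (ContinuousLinearMap.id ℝ E - N.comp R) - ContinuousLinearMap.id ℝ E) = -R := by
      ext x
      simp [hN, hRν]
    rwa [h3] at h2
  have hshift : ∀ (w : E) (s : ℝ), h (w + s • ν) = h w - s := by
    intro w s
    have h1 : π (w + s • ν) = π w := by
      simp only [π, hN]
      have : R (w + s • ν - p) = R (w - p) + s := by
        simp [hRν]; ring
      rw [this, add_smul]
      abel
    simp only [h, h1]
    simp [hRν]
    ring
  -- the zero on the line
  have hzero : ∀ᶠ w in 𝓝 p, ρ (w + h w • ν) = 0 := by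
    have ht : Tendsto π (𝓝 p) (𝓝 p) := by
      have := hπ.continuous.tendsto p
      rwa [hπp] at this
    filter_upwards [ht.eventually hΘr] with w hw
    set y := Θ (π w) with hy
    have h1 : y + N (c⁻¹ * ρ y - R (y - p)) = w - N (R (w - p)) := hw
    have h2 := congrArg R h1
    simp only [hN, map_add, map_sub, map_smul, hRν, smul_eq_mul, mul_one] at h2
    have h3 : ρ y = 0 := by
      have : c⁻¹ * ρ y = 0 := by linarith
      rcases mul_eq_zero.1 this with h4 | h4
      · exact absurd h4 (inv_ne_zero hc.ne')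
      · exact h4
    have h5 : y = w + h w • ν := by
      rw [h3] at h1
      simp only [hN, mul_zero, zero_sub] at h1
      have h6 : y = w + (R (y - p) - R (w - p)) • ν := by
        rw [sub_smul]
        rw [neg_smul] at h1
        calc y = (y + -(R (y - p) • ν)) + R (y - p) • ν := by abel
          _ = (w - R (w - p) • ν) + R (y - p) • ν := by rw [h1]
          _ = w + (R (y - p) • ν - R (w - p) • ν) := by abel
      have h7 : R (y - p) - R (w - p) = h w := by
        simp only [h, ← hy, map_sub]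
        ring
      rwa [h7] at h6
    rw [← h5]
    exact h3
  have hcomp : ∀ᶠ w in 𝓝 p, |ρ w + c * h w| ≤ c / 2 * |h w| := by
    have hs : HasStrictFDerivAt ρ (c • R) p := hρ.contDiffAt.hasStrictFDerivAt' hρd two_ne_zero
    have h1 := hs.isLittleO.def (half_pos hc)
    have hcont : ContinuousAt (fun w => ((w + h w • ν, w) : E × E)) p := by
      have := hhc.continuousAt
      fun_prop
    have ht : Tendsto (fun w => ((w + h w • ν, w) : E × E)) (𝓝 p) (𝓝 (p, p)) := by
      have h2 := hcont.tendsto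
      simpa [hhp] using h2
    filter_upwards [hzero, ht.eventually h1] with w h2 h3
    simp only [add_sub_cancel_left, map_smul, ContinuousLinearMap.smul_apply, hRν, norm_smul,
      hn, h2, smul_eq_mul, mul_one, Real.norm_eq_abs] at h3
    have h4 : (0 : ℝ) - ρ w - h w * c = -(ρ w + c * h w) := by ring
    rw [h4, abs_neg] at h3
    exact h3
  -- C1 bounds
  have hev : ∀ᶠ w in 𝓝 p, ContDiffAt ℝ 2 h w := hhc.eventually (by simp)
  have hd1 : ContDiffAt ℝ 1 (fderiv ℝ h) p := hhc.fderiv_right (m := 1) (by norm_num)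
  obtain ⟨K, t, ht, hK⟩ := hd1.exists_lipschitzOnWith
  obtain ⟨r1, hr1, hr1'⟩ := Metric.eventually_nhds_iff_ball.1
    ((hev.and (hzero.and hcomp)).and (show ∀ᶠ w in 𝓝 p, w ∈ t from ht))
  have hhd' : fderiv ℝ h p = -R := hhd.fderiv
  set r := min r1 1 with hr
  have hr0 : 0 < r := lt_min hr1 one_pos
  have hrr : ∀ w ∈ ball p r, w ∈ ball p r1 := fun w hw => ball_subset_ball (min_le_left _ _) hw
  have hLip : ∀ w ∈ ball p r1, ‖fderiv ℝ h w + R‖ ≤ K * ‖w - p‖ := by
    intro w hw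
    have h1 := hK.dist_le_mul w (hr1' w hw).2 p (hr1' p (mem_ball_self hr1)).2
    rw [dist_eq_norm, dist_eq_norm, hhd', sub_neg_eq_add] at h1
    exact h1
  have hquad : ∀ w ∈ ball p r, ∀ w' ∈ ball p r,
      |h w' - h w + R (w' - w)| ≤ K * (‖w - p‖ + ‖w' - w‖) * ‖w' - w‖ := by
    intro w hw w' hw'
    let s : Set E := ball p r ∩ closedBall p (‖w - p‖ + ‖w' - w‖)
    have hs : Convex ℝ s := (convex_ball p r).inter (convex_closedBall p _)
    have hws : w ∈ s := ⟨hw, by
      rw [mem_closedBall, dist_eq_norm]; linarith [norm_nonneg (w' - w)]⟩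
    have hws' : w' ∈ s := ⟨hw', by
      rw [mem_closedBall, dist_eq_norm]
      calc ‖w' - p‖ = ‖(w - p) + (w' - w)‖ := by congr 1; abel
        _ ≤ _ := norm_add_le _ _⟩
    have h1 := hs.norm_image_sub_le_of_norm_hasFDerivWithin_le' (f := h) (f' := fderiv ℝ h)
      (φ := -R) (C := K * (‖w - p‖ + ‖w' - w‖)) (x := w) (y := w')
      (fun x hx => ((hr1' x (hrr x hx.1)).1.1.differentiableAt two_ne_zero).hasFDerivAt.hasFDerivWithinAt)
      (fun x hx => by
        rw [sub_neg_eq_add]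
        refine (hLip x (hrr x hx.1)).trans ?_
        have h2 := hx.2
        rw [mem_closedBall, dist_eq_norm] at h2
        exact mul_le_mul_of_nonneg_left h2 K.2) hws hws'
    rw [Real.norm_eq_abs] at h1
    have h3 : h w' - h w - (-R) (w' - w) = h w' - h w + R (w' - w) := by
      rw [ContinuousLinearMap.neg_apply, sub_neg_eq_add]
    rwa [h3] at h1
  refine ⟨h, r, 3 * K + ‖R‖ + 1, hr0, by positivity, ?_, hhd', ?_, ?_, hshift, ?_, ?_⟩
  · intro w hw
    exact (hr1' w (hrr w hw)).1.1.contDiffWithinAt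
  · intro w hw
    have h1 := (hr1' w (hrr w hw)).1.2.2
    rw [abs_le] at h1
    constructor
    · intro h2
      by_contra h3
      push Not at h3
      rw [abs_of_nonpos h3] at h1
      nlinarith [h1.1]
    · intro h2
      rw [abs_of_pos h2] at h1
      nlinarith [h1.2]
  · intro w hw
    have h1 := (hr1' w (hrr w hw)).1.2.2
    constructor
    · intro h2
      rw [h2, zero_add, abs_mul, abs_of_pos hc] at h1
      have h3 : |h w| ≤ 0 := by nlinarith [abs_nonneg (h w)]
      exact abs_nonpos_iff.1 h3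
    · intro h2
      rw [h2] at h1
      simpa using h1
  · intro w hw w' hw'
    have h1 := hquad w' hw' w hw
    have h2 : |R (w - w')| ≤ ‖R‖ * ‖w - w'‖ := by
      rw [← Real.norm_eq_abs]; exact R.le_opNorm _
    have h3 : ‖w' - p‖ + ‖w - w'‖ ≤ 3 := by
      have e1 : ‖w - p‖ < 1 := by
        rw [← dist_eq_norm]; exact (mem_ball.1 hw).trans_le (min_le_right _ _)
      have e2 : ‖w' - p‖ < 1 := by
        rw [← dist_eq_norm]; exact (mem_ball.1 hw').trans_le (min_le_right _ _)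
      have e3 : ‖w - w'‖ ≤ ‖w - p‖ + ‖w' - p‖ := by
        calc ‖w - w'‖ = ‖(w - p) - (w' - p)‖ := by congr 1; abel
          _ ≤ _ := norm_sub_le _ _
      linarith
    have h4 : |h w - h w'| ≤ |h w - h w' + R (w - w')| + |R (w - w')| := by
      have : h w - h w' = (h w - h w' + R (w - w')) - R (w - w') := by ring
      calc |h w - h w'| = |(h w - h w' + R (w - w')) - R (w - w')| := by rw [← this]
        _ ≤ _ := abs_sub _ _
    have e1 : (0 : ℝ) ≤ K := K.2
    have h5 : (K : ℝ) * (‖w' - p‖ + ‖w - w'‖) * ‖w - w'‖ ≤ K * 3 * ‖w - w'‖ :=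
      mul_le_mul_of_nonneg_right (mul_le_mul_of_nonneg_left h3 e1) (norm_nonneg _)
    have h6 : 0 ≤ ‖w - w'‖ := norm_nonneg _
    calc |h w - h w'| ≤ K * 3 * ‖w - w'‖ + ‖R‖ * ‖w - w'‖ := by linarith
      _ ≤ (3 * K + ‖R‖ + 1) * ‖w - w'‖ := by nlinarith
  · intro w hw w' hw'
    refine (hquad w hw w' hw').trans ?_
    have e1 : (0 : ℝ) ≤ K := K.2
    have e2 := norm_nonneg R
    have e3 : 0 ≤ ‖w' - w‖ * (‖w - p‖ + ‖w' - w‖) := by positivity
    nlinarith [mul_nonneg e1 e3, mul_nonneg e2 e3]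

open Pool.Agent.W737.SB in
theorem t_h : S_h := by
  intro n ρ p hρ hp hd
  let L : V n →L[ℝ] ℝ := fderiv ℝ ρ p
  let a : V n := (InnerProductSpace.toDual ℂ (V n)).symm (StrongDual.extendRCLike (𝕜 := ℂ) L)
  have ha : ∀ X : V n, (inner ℂ a X : ℂ).re = L X := by
    intro X
    rw [InnerProductSpace.toDual_symm_apply]
    simp [StrongDual.extendRCLike_apply]
  have ha0 : a ≠ 0 := by
    intro h0
    apply hd
    ext X
    have := ha X
    rw [h0] at this
    simpa using this.symm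
  have hc : 0 < ‖a‖ := norm_pos_iff.2 ha0
  let ν : V n := ((‖a‖⁻¹ : ℝ) : ℂ) • a
  have hν : ‖ν‖ = 1 := by
    simp only [ν, norm_smul, Complex.norm_real, norm_inv, norm_norm]
    exact inv_mul_cancel₀ hc.ne'
  have hνX : ∀ X : V n, (inner ℂ ν X : ℂ).re = ‖a‖⁻¹ * L X := by
    intro X
    simp only [ν, inner_smul_left, Complex.conj_ofReal, Complex.re_ofReal_mul, ha X]
  have hνν : (inner ℂ ν ν : ℂ) = 1 := by
    rw [inner_self_eq_norm_sq_to_K, hν]
    simp
  let R : V n →L[ℝ] ℝ := Complex.reCLM.comp ((innerSL ℂ ν).restrictScalars ℝ)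
  have hR : ∀ X, R X = (inner ℂ ν X : ℂ).re := fun X => rfl
  have hLR : fderiv ℝ ρ p = ‖a‖ • R := by
    ext X
    show L X = ‖a‖ * R X
    rw [hR, hνX, ← mul_assoc, mul_inv_cancel₀ hc.ne', one_mul]
  have hRν : R ν = 1 := by
    rw [hR, hνν]; simp
  have hsm : ∀ s : ℝ, (s : ℂ) • ν = s • ν := fun s => Complex.coe_smul s ν
  obtain ⟨h, r, C, hr, hC, h1, h2, h3, h4, h5, h6, h7⟩ :=
    absH ρ p ν R ‖a‖ hc hRν hν hρ hp hLR
  refine ⟨ν, h, r, C, ‖a‖, ⟨hp, hν, hr, hC, h1, ?_, h3, h4, ?_, h6, ?_⟩, hc, ?_⟩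
  · intro X
    rw [h2]
    show -(R X) = _
    rw [hR]
  · intro w _ s _
    rw [hsm]
    exact h5 w s
  · intro w hw s hw'
    have h8 := h7 w hw _ hw'
    have h9 : w + (Complex.I * (s : ℂ)) • ν - w = (Complex.I * (s : ℂ)) • ν := by abel
    have h10 : R ((Complex.I * (s : ℂ)) • ν) = 0 := by
      rw [hR, inner_smul_right, hνν]
      simp
    have h11 : ‖(Complex.I * (s : ℂ)) • ν‖ = |s| := by
      rw [norm_smul, hν, norm_mul, Complex.norm_I, Complex.norm_real, Real.norm_eq_abs]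
      ring
    rw [h9, h10, h11, add_zero] at h8
    exact h8
  · intro X
    rw [hLR]
    rfl

end Pool.Agent.W239.SB
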